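import Pool.Agent.H144.TS.Stm

set_option autoImplicit false

/-!
# TS FUN: maximal two-sided ideals of `F[G]` are stable under power automorphisms (helper974)
-/

namespace Pool.Agent.H974.TS144

open Pool.Agent.H144.TS

section

variable {F : Type} [Field F] [Fintype F] {G : Type} [Group G] [Fintype G]

omit [Group G] in
/-- `F[G]` is finite. -/
lemma finite_monoidAlgebra : Finite (MonoidAlgebra F G) := by
  have : Finite (G →₀ F) := Finite.of_equiv (G → F) Finsupp.equivFunOnFinite.symm
  exact Finite.of_equiv (G →₀ F) MonoidAlgebra.coeffEquiv.symm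

omit [Fintype F] [Fintype G] in
/-- The quotient by a maximal two-sided ideal is simple. -/
lemma simple_quotient (I : Ideal (MonoidAlgebra F G)) [hI : I.IsTwoSided] (hne : I ≠ ⊤)
    (hmax : ∀ J : Ideal (MonoidAlgebra F G), J.IsTwoSided → I ≤ J → J = I ∨ J = ⊤) :
    IsSimpleRing (MonoidAlgebra F G ⧸ I) := by
  rw [isSimpleRing_iff_isTwoSided_imp]
  refine ⟨Ideal.Quotient.nontrivial_iff.mpr hne, fun J hJ => ?_⟩
  have hJ2 : (J.comap (Ideal.Quotient.mk I)).IsTwoSided := by
    refine ⟨fun {a} b ha => ?_⟩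
    rw [Ideal.mem_comap] at ha ⊢
    rw [map_mul]
    exact hJ.mul_mem_of_left _ ha
  have hIJ : I ≤ J.comap (Ideal.Quotient.mk I) := by
    intro x hx
    rw [Ideal.mem_comap, Ideal.Quotient.eq_zero_iff_mem.mpr hx]
    exact J.zero_mem
  rcases hmax _ hJ2 hIJ with h | h
  · left
    rw [eq_bot_iff]
    intro y hy
    obtain ⟨x, rfl⟩ := Ideal.Quotient.mk_surjective y
    have hx : x ∈ J.comap (Ideal.Quotient.mk I) := hy
    rw [h] at hx
    rw [Ideal.mem_bot]
    exact Ideal.Quotient.eq_zero_iff_mem.mpr hx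
  · right
    rw [eq_top_iff]
    intro y _
    obtain ⟨x, rfl⟩ := Ideal.Quotient.mk_surjective y
    have hx : x ∈ J.comap (Ideal.Quotient.mk I) := by
      rw [h]; trivial
    exact hx

/-- The functional on `F[G]`. -/
lemma exists_fun (h : S_TRC) (I : Ideal (MonoidAlgebra F G)) (hI : I.IsTwoSided) (hne : I ≠ ⊤)
    (hmax : ∀ J : Ideal (MonoidAlgebra F G), J.IsTwoSided → I ≤ J → J = I ∨ J = ⊤) :
    ∃ L : MonoidAlgebra F G →ₗ[F] F, L ≠ 0 ∧ (∀ x ∈ I, L x = 0) ∧
      (∀ x y, L (x * y) = L (y * x)) ∧ ∀ x, L (x ^ Fintype.card F) = L x := by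
  have hs := simple_quotient I hne hmax
  have hf : Finite (MonoidAlgebra F G) := finite_monoidAlgebra
  have hfq : Finite (MonoidAlgebra F G ⧸ I) :=
    Finite.of_surjective (Ideal.Quotient.mk I) Ideal.Quotient.mk_surjective
  obtain ⟨lam, h0, h1, h2⟩ := h F (MonoidAlgebra F G ⧸ I)
  refine ⟨lam ∘ₗ (Ideal.Quotient.mkₐ F I).toLinearMap, ?_, ?_, ?_, ?_⟩
  · intro hc
    apply h0
    ext y
    obtain ⟨x, rfl⟩ := Ideal.Quotient.mk_surjective y
    exact LinearMap.congr_fun hc x
  · intro x hx
    have : (Ideal.Quotient.mkₐ F I) x = 0 := Ideal.Quotient.eq_zero_iff_mem.mpr hx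
    simp only [LinearMap.comp_apply, AlgHom.toLinearMap_apply, this, map_zero]
  · intro x y
    simp only [LinearMap.comp_apply, AlgHom.toLinearMap_apply, map_mul]
    exact h1 _ _
  · intro x
    simp only [LinearMap.comp_apply, AlgHom.toLinearMap_apply, map_pow]
    exact h2 _

end

theorem t_fun (h : S_TRC) : S_FUN := by
  intro F _ _ G _ _ I hI hne hmax μ hμ
  obtain ⟨L, hL0, hLI, hLc, hLp⟩ := exists_fun h I hI hne hmax
  set M := MonoidAlgebra.domCongr F F μ with hM
  -- powers
  have hpow : ∀ (s : ℕ) (x : MonoidAlgebra F G), L (x ^ (Fintype.card F ^ s)) = L x := by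
    intro s
    induction s with
    | zero => intro x; simp
    | succ s ih =>
      intro x
      rw [pow_succ, pow_mul, hLp, ih]
  have hpowg : ∀ (s : ℕ) (g : G), L (MonoidAlgebra.single (g ^ (Fintype.card F ^ s)) (1 : F)) =
      L (MonoidAlgebra.single g (1 : F)) := by
    intro s g
    rw [← hpow s (MonoidAlgebra.single g (1 : F)), MonoidAlgebra.single_pow, one_pow]
  have hconj : ∀ g g' : G, IsConj g g' → L (MonoidAlgebra.single g (1 : F)) =
      L (MonoidAlgebra.single g' (1 : F)) := by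
    intro g g' hgg
    rw [isConj_iff] at hgg
    obtain ⟨c, hc⟩ := hgg
    have e1 : MonoidAlgebra.single g' (1 : F) = MonoidAlgebra.single (c * g) (1 : F) *
        MonoidAlgebra.single c⁻¹ (1 : F) := by
      rw [MonoidAlgebra.single_mul_single, hc, one_mul]
    have e2 : MonoidAlgebra.single c⁻¹ (1 : F) * MonoidAlgebra.single (c * g) (1 : F) =
        MonoidAlgebra.single g (1 : F) := by
      rw [MonoidAlgebra.single_mul_single, inv_mul_cancel_left, one_mul]
    rw [e1, hLc, e2]
  have hμg : ∀ g : G, L (MonoidAlgebra.single (μ g) (1 : F)) =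
      L (MonoidAlgebra.single g (1 : F)) := by
    intro g
    obtain ⟨s, t, hst⟩ := hμ g
    rw [← hpowg t (μ g), ← hpowg s g]
    exact (hconj _ _ hst).symm
  have hLM : ∀ x, L (M x) = L x := by
    intro x
    induction x using MonoidAlgebra.induction_linear with
    | zero => simp
    | add x y hx hy => rw [map_add, map_add, hx, hy, map_add]
    | single g r =>
      have e : MonoidAlgebra.single g r = r • MonoidAlgebra.single g (1 : F) := by
        rw [MonoidAlgebra.smul_single, smul_eq_mul, mul_one]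
      rw [e, map_smul, map_smul, map_smul, hM, MonoidAlgebra.domCongr_single, hμg]
  -- the image ideal
  have hJ : (I.comap (M.symm : MonoidAlgebra F G →+* MonoidAlgebra F G)).IsTwoSided := by
    refine ⟨fun {a} b ha => ?_⟩
    rw [Ideal.mem_comap] at ha ⊢
    rw [map_mul]
    exact hI.mul_mem_of_left _ ha
  set J := I.comap (M.symm : MonoidAlgebra F G →+* MonoidAlgebra F G) with hJdef
  have hsup : (I ⊔ J).IsTwoSided := by
    refine ⟨fun {a} b ha => ?_⟩
    obtain ⟨u, hu, v, hv, rfl⟩ := Submodule.mem_sup.mp ha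
    rw [add_mul]
    exact Submodule.mem_sup.mpr ⟨u * b, hI.mul_mem_of_left _ hu, v * b, hJ.mul_mem_of_left _ hv, rfl⟩
  intro x hx
  rcases hmax (I ⊔ J) hsup le_sup_left with h1 | h1
  · have hJI : J ≤ I := by
      rw [← h1]; exact le_sup_right
    apply hJI
    rw [hJdef, Ideal.mem_comap]
    have : (M.symm : MonoidAlgebra F G →+* MonoidAlgebra F G) (M x) = x := M.symm_apply_apply x
    rw [this]
    exact hx
  · exfalso
    apply hL0
    refine LinearMap.ext fun y => ?_
    have hy : y ∈ I ⊔ J := by rw [h1]; trivial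
    obtain ⟨a, ha, b, hb, rfl⟩ := Submodule.mem_sup.mp hy
    have hb' : L b = 0 := by
      have h3 : M.symm b ∈ I := hb
      rw [← hLI _ h3, ← hLM (M.symm b), M.apply_symm_apply]
    rw [map_add, hLI a ha, hb', add_zero]
    rfl

end Pool.Agent.H974.TS144
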